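import Mathlib
import Pool.Agent.Helper43.RectB

set_option autoImplicit false

namespace Pool.Agent.Results.MP_3d878b_co.BallsChiBigInfinite

open Finset Pool.Agent.Helper43.Rect

/-- three-dimensional Euclidean space -/
abbrev E3 := EuclideanSpace ℝ (Fin 3)

/-- the points: `(64^i, η 64^(i+y), η 64^(i-y))` -/
noncomputable def pt (η : ℝ) (i y : ℕ) : E3 :=
  !₂[(64:ℝ)^i, η * ((64:ℝ)^i * (64:ℝ)^y), η * ((64:ℝ)^i * ((64:ℝ)^y)⁻¹)]

/-- the centre of the ball cutting out the rectangle `[a,b] × [c,d]` -/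
noncomputable def cen (η : ℝ) (b c d : ℕ) : E3 :=
  !₂[4 * (64:ℝ)^b, -((64:ℝ)^b * ((64:ℝ)^d)⁻¹) / (2 * η), -((64:ℝ)^b * (64:ℝ)^c) / (2 * η)]

/-- squared radius -/
noncomputable def rsq (η : ℝ) (a b c d : ℕ) : ℝ :=
  (4 * (64:ℝ)^b)^2 + (((64:ℝ)^b * ((64:ℝ)^d)⁻¹) / (2 * η))^2 + (((64:ℝ)^b * (64:ℝ)^c) / (2 * η))^2
    - (64:ℝ)^a * (64:ℝ)^b

lemma dist_sq (η : ℝ) (hη : η ≠ 0) (i y a b c d : ℕ) :
    dist (pt η i y) (cen η b c d) ^ 2 = rsq η a b c d +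
      (((64:ℝ)^i)^2 * (1 + (η * (64:ℝ)^y)^2 + (η * ((64:ℝ)^y)⁻¹)^2) - 8 * (64:ℝ)^b * (64:ℝ)^i
        + (64:ℝ)^b * (64:ℝ)^i * ((64:ℝ)^y * ((64:ℝ)^d)⁻¹)
        + (64:ℝ)^b * (64:ℝ)^i * (((64:ℝ)^y)⁻¹ * (64:ℝ)^c) + (64:ℝ)^a * (64:ℝ)^b) := by
  rw [EuclideanSpace.dist_eq, Real.sq_sqrt (Finset.sum_nonneg (fun _ _ => sq_nonneg _))]
  simp only [Fin.sum_univ_three, pt, cen, Real.dist_eq, sq_abs]
  simp only [Matrix.cons_val_zero, Matrix.cons_val_one, Matrix.cons_val]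
  unfold rsq
  field_simp
  ring

lemma inside (η : ℝ) (hη : η ≠ 0) (i y a b c d : ℕ) (h1 : a ≤ i) (h2 : i ≤ b) (h3 : c ≤ y)
    (h4 : y ≤ d) (he1 : (η * (64:ℝ)^y)^2 ≤ 1/2) (he2 : (η * ((64:ℝ)^y)⁻¹)^2 ≤ 1/2) :
    dist (pt η i y) (cen η b c d) ^ 2 < rsq η a b c d := by
  rw [dist_sq η hη i y a b c d]
  have e1 : (64:ℝ)^a ≤ (64:ℝ)^i := pow_le_pow_right₀ (by norm_num) h1
  have e2 : (64:ℝ)^i ≤ (64:ℝ)^b := pow_le_pow_right₀ (by norm_num) h2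
  have e3 : (64:ℝ)^c ≤ (64:ℝ)^y := pow_le_pow_right₀ (by norm_num) h3
  have e4 : (64:ℝ)^y ≤ (64:ℝ)^d := pow_le_pow_right₀ (by norm_num) h4
  have p1 : (0:ℝ) < (64:ℝ)^i := by positivity
  have p2 : (0:ℝ) < (64:ℝ)^b := by positivity
  have p3 : (0:ℝ) < (64:ℝ)^y := by positivity
  have p4 : (0:ℝ) < (64:ℝ)^d := by positivity
  have f1 : (64:ℝ)^y * ((64:ℝ)^d)⁻¹ ≤ 1 := by
    rw [← div_eq_mul_inv, div_le_one p4]; exact e4
  have f2 : ((64:ℝ)^y)⁻¹ * (64:ℝ)^c ≤ 1 := by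
    rw [mul_comm, ← div_eq_mul_inv, div_le_one p3]; exact e3
  generalize (64:ℝ)^y * ((64:ℝ)^d)⁻¹ = S1 at *
  generalize ((64:ℝ)^y)⁻¹ * (64:ℝ)^c = S2 at *
  generalize (η * (64:ℝ)^y)^2 = S3 at *
  generalize (η * ((64:ℝ)^y)⁻¹)^2 = S4 at *
  generalize (64:ℝ)^a = A at *
  generalize (64:ℝ)^i = X at *
  generalize (64:ℝ)^b = B at *
  have g1 : X^2 * (1 + S3 + S4) ≤ B * X * 2 := by
    have : X ^ 2 ≤ B * X := by nlinarith
    have : X^2 * (1 + S3 + S4) ≤ X^2 * 2 := by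
      apply mul_le_mul_of_nonneg_left _ (by positivity)
      linarith
    nlinarith
  have g2 : B * X * S1 ≤ B * X := by
    have : 0 < B * X := by positivity
    nlinarith
  have g3 : B * X * S2 ≤ B * X := by
    have : 0 < B * X := by positivity
    nlinarith
  have g4 : A * B ≤ B * X := by nlinarith
  have : 0 < B * X := by positivity
  nlinarith

lemma outside (η : ℝ) (hη : η ≠ 0) (i y a b c d : ℕ) (h : ¬ (a ≤ i ∧ i ≤ b ∧ c ≤ y ∧ y ≤ d)) :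
    rsq η a b c d < dist (pt η i y) (cen η b c d) ^ 2 := by
  rw [dist_sq η hη i y a b c d]
  have key : ∀ s t : ℕ, s < t → 64 * (64:ℝ)^s ≤ (64:ℝ)^t := by
    intro s t hst
    rw [mul_comm, ← pow_succ]
    exact pow_le_pow_right₀ (by norm_num) hst
  have p0 : (0:ℝ) < (64:ℝ)^a := by positivity
  have p1 : (0:ℝ) < (64:ℝ)^i := by positivity
  have p2 : (0:ℝ) < (64:ℝ)^b := by positivity
  have p3 : (0:ℝ) < (64:ℝ)^y := by positivity
  have p4 : (0:ℝ) < (64:ℝ)^d := by positivity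
  have p5 : (0:ℝ) < (64:ℝ)^c := by positivity
  have n1 : 0 ≤ (η * (64:ℝ)^y)^2 := sq_nonneg _
  have n2 : 0 ≤ (η * ((64:ℝ)^y)⁻¹)^2 := sq_nonneg _
  have n3 : 0 < (64:ℝ)^y * ((64:ℝ)^d)⁻¹ := by positivity
  have n4 : 0 < ((64:ℝ)^y)⁻¹ * (64:ℝ)^c := by positivity
  have hBX : 0 < (64:ℝ)^b * (64:ℝ)^i := by positivity
  have hX2 : ((64:ℝ)^i)^2 ≤ ((64:ℝ)^i)^2 * (1 + (η * (64:ℝ)^y)^2 + (η * ((64:ℝ)^y)⁻¹)^2) := by
    have : 0 ≤ ((64:ℝ)^i)^2 := sq_nonneg _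
    nlinarith
  have m1 : 0 < (64:ℝ)^b * (64:ℝ)^i * ((64:ℝ)^y * ((64:ℝ)^d)⁻¹) := by positivity
  have m2 : 0 < (64:ℝ)^b * (64:ℝ)^i * (((64:ℝ)^y)⁻¹ * (64:ℝ)^c) := by positivity
  have m3 : 0 < (64:ℝ)^a * (64:ℝ)^b := by positivity
  have m4 : 0 < ((64:ℝ)^i)^2 := by positivity
  have hcases : i < a ∨ b < i ∨ y < c ∨ d < y := by omega
  rcases hcases with h | h | h | h
  · have h5 := key i a h
    have : 64 * ((64:ℝ)^b * (64:ℝ)^i) ≤ (64:ℝ)^a * (64:ℝ)^b := by nlinarith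
    linarith
  · have h5 := key b i h
    have : 64 * ((64:ℝ)^b * (64:ℝ)^i) ≤ ((64:ℝ)^i)^2 := by nlinarith
    linarith
  · have h5 := key y c h
    have h6 : 64 ≤ ((64:ℝ)^y)⁻¹ * (64:ℝ)^c := by
      rw [mul_comm, ← div_eq_mul_inv, le_div_iff₀ p3]; exact h5
    have : 64 * ((64:ℝ)^b * (64:ℝ)^i) ≤ (64:ℝ)^b * (64:ℝ)^i * (((64:ℝ)^y)⁻¹ * (64:ℝ)^c) := by nlinarith
    linarith
  · have h5 := key d y h
    have h6 : 64 ≤ (64:ℝ)^y * ((64:ℝ)^d)⁻¹ := by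
      rw [← div_eq_mul_inv, le_div_iff₀ p4]; exact h5
    have : 64 * ((64:ℝ)^b * (64:ℝ)^i) ≤ (64:ℝ)^b * (64:ℝ)^i * ((64:ℝ)^y * ((64:ℝ)^d)⁻¹) := by nlinarith
    linarith

open Classical in
/-- For all `c` and `m` there is a finite point set `P` in three-space such that every coloring of
`P` with `c` colors leaves some ball which contains at least `m` points of `P`, all of one color
(and no point of `P` lies on the boundary of that ball). -/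
theorem result : ∀ c m : ℕ, ∃ P : Finset (EuclideanSpace ℝ (Fin 3)), ∀ col : P → Fin c,
    ∃ (x : EuclideanSpace ℝ (Fin 3)) (r : ℝ), 0 < r ∧ (∀ p ∈ P, dist p x ≠ r) ∧
      m ≤ (P.filter (fun p => p ∈ Metric.closedBall x r)).card ∧
      ∃ k : Fin c, ∀ p : P, (p : EuclideanSpace ℝ (Fin 3)) ∈ Metric.closedBall x r → col p = k := by
  intro c m
  obtain ⟨n, Y, hY⟩ := rectangles c (max m 1) (le_max_right _ _)
  set H := ∑ i, Y i with hH
  have hYH : ∀ i, Y i ≤ H := fun i => Finset.single_le_sum (fun _ _ => Nat.zero_le _) (Finset.mem_univ i)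
  set η : ℝ := ((2:ℝ) * (64:ℝ)^H)⁻¹ with hη
  have hη0 : η ≠ 0 := by positivity
  have hηpos : 0 < η := by positivity
  have he1 : ∀ i, (η * (64:ℝ)^(Y i))^2 ≤ 1/2 := by
    intro i
    have h1 : (64:ℝ)^(Y i) ≤ (64:ℝ)^H := pow_le_pow_right₀ (by norm_num) (hYH i)
    have h2 : η * (64:ℝ)^(Y i) ≤ 1/2 := by
      rw [hη, inv_mul_le_iff₀ (by positivity)]
      linarith
    have h3 : 0 ≤ η * (64:ℝ)^(Y i) := by positivity
    nlinarith
  have he2 : ∀ i, (η * ((64:ℝ)^(Y i))⁻¹)^2 ≤ 1/2 := by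
    intro i
    have h0 : (1:ℝ) ≤ (64:ℝ)^(Y i) := one_le_pow₀ (by norm_num)
    have h1 : ((64:ℝ)^(Y i))⁻¹ ≤ 1 := inv_le_one_of_one_le₀ h0
    have h4 : (1:ℝ) ≤ (64:ℝ)^H := one_le_pow₀ (by norm_num)
    have h5 : η ≤ 1/2 := by
      rw [hη, inv_le_comm₀ (by positivity) (by positivity)]
      linarith
    have h6 : 0 ≤ ((64:ℝ)^(Y i))⁻¹ := by positivity
    have h2 : η * ((64:ℝ)^(Y i))⁻¹ ≤ 1/2 := by nlinarith
    have h3 : 0 ≤ η * ((64:ℝ)^(Y i))⁻¹ := by positivity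
    nlinarith
  set f : Fin n → E3 := fun i => pt η i (Y i) with hf
  have hfinj : Function.Injective f := by
    intro i j hij
    have h1 := congrArg (fun v : E3 => v 0) hij
    simp only [hf, pt, PiLp.toLp_apply, Matrix.cons_val_zero] at h1
    have h2 := pow_right_injective₀ (a := (64:ℝ)) (by norm_num) (by norm_num) h1
    exact Fin.ext h2
  refine ⟨univ.image f, ?_⟩
  intro col
  have hfmem : ∀ i, f i ∈ univ.image f := fun i => Finset.mem_image_of_mem f (Finset.mem_univ i)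
  obtain ⟨a, b, u, j, hcard, k, hk⟩ := hY (fun i => col ⟨f i, hfmem i⟩)
  set s := univ.filter (fun i => a ≤ i ∧ i ≤ b ∧ Y i / 2^j = u) with hs
  have hj : 0 < 2 ^ j := by positivity
  have hrect : ∀ i : Fin n, i ∈ s ↔ ((a : ℕ) ≤ (i : ℕ) ∧ (i : ℕ) ≤ (b : ℕ) ∧ u * 2^j ≤ Y i ∧ Y i ≤ (u * 2^j + (2^j - 1))) := by
    intro i
    rw [hs, Finset.mem_filter]
    rw [Nat.div_eq_iff hj]
    simp only [Finset.mem_univ, true_and, Fin.le_def]
    constructor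
    · rintro ⟨h1, h2, h3, h4⟩; exact ⟨h1, h2, h3, by omega⟩
    · rintro ⟨h1, h2, h3, h4⟩; exact ⟨h1, h2, h3, by omega⟩
  set C := cen η b (u * 2^j) (u * 2^j + (2^j - 1)) with hC
  set R2 := rsq η a b (u * 2^j) (u * 2^j + (2^j - 1)) with hR2
  have hin : ∀ i ∈ s, dist (f i) C ^ 2 < R2 := by
    intro i hi
    obtain ⟨h1, h2, h3, h4⟩ := (hrect i).1 hi
    exact inside η hη0 i (Y i) a b _ _ h1 h2 h3 h4 (he1 i) (he2 i)
  have hout : ∀ i, i ∉ s → R2 < dist (f i) C ^ 2 := by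
    intro i hi
    exact outside η hη0 i (Y i) a b _ _ (fun h => hi ((hrect i).2 h))
  have hsne : s.Nonempty := by
    rw [← Finset.card_pos]
    have := le_max_right m 1
    omega
  have hR2pos : 0 < R2 := by
    obtain ⟨i, hi⟩ := hsne
    exact lt_of_le_of_lt (sq_nonneg _) (hin i hi)
  have hrpos : 0 < Real.sqrt R2 := Real.sqrt_pos.2 hR2pos
  have hiff : ∀ i, f i ∈ Metric.closedBall C (Real.sqrt R2) ↔ i ∈ s := by
    intro i
    rw [Metric.mem_closedBall, Real.le_sqrt dist_nonneg hR2pos.le]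
    constructor
    · intro h
      by_contra h1
      exact absurd h (not_le.2 (hout i h1))
    · intro h
      exact (hin i h).le
  refine ⟨C, Real.sqrt R2, hrpos, ?_, ?_, k, ?_⟩
  · intro p hp
    obtain ⟨i, -, rfl⟩ := Finset.mem_image.1 hp
    intro heq
    have h1 : dist (f i) C ^ 2 = R2 := by rw [heq, Real.sq_sqrt hR2pos.le]
    by_cases hi : i ∈ s
    · exact absurd h1 (ne_of_lt (hin i hi))
    · exact absurd h1 (ne_of_gt (hout i hi))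
  · have h1 : (univ.image f).filter (fun p => p ∈ Metric.closedBall C (Real.sqrt R2)) = s.image f := by
      ext p
      rw [Finset.mem_filter, Finset.mem_image, Finset.mem_image]
      constructor
      · rintro ⟨⟨i, -, rfl⟩, h2⟩
        exact ⟨i, (hiff i).1 h2, rfl⟩
      · rintro ⟨i, hi, rfl⟩
        exact ⟨⟨i, Finset.mem_univ _, rfl⟩, (hiff i).2 hi⟩
    rw [h1, Finset.card_image_of_injective _ hfinj]
    exact (le_max_left m 1).trans hcard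
  · rintro ⟨p, hp⟩ hpb
    obtain ⟨i, -, rfl⟩ := Finset.mem_image.1 hp
    exact hk i ((hiff i).1 hpb)

end Pool.Agent.Results.MP_3d878b_co.BallsChiBigInfinite
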